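import Pool.Agent.W382.IM.FamA
import Pool.Agent.W407.SE.Ratp
import Pool.Agent.W405.SE.GoodP
import Pool.Agent.W612.SE.Seld
import Pool.Agent.W597.SE.SELC

set_option autoImplicit false

namespace Pool.Agent.W382.IM

open Finset Pool.Agent.W307.RT Pool.Agent.W307.IM Pool.Agent.W307.SE

theorem seld : SELD := Pool.Agent.W612.SE.seld_of
  (Pool.Agent.W405.SE.goodp_of Pool.Agent.W407.SE.ratp)

theorem sel_fin (h : SELD) {A B : ℤ} (hA : A ≠ 0) (hB : B ≠ 0) (hAB : A ≠ B) :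
    (Sel A B).Finite := by
  refine (h 1 (fun _ _ _ _ _ => True) A B hA hB hAB odd_one squarefree_one
    (fun p hp hp1 => ?_) (fun p hp hp1 => ?_)).1
  · exact absurd (Nat.dvd_one.1 hp1) hp.one_lt.ne'
  · exact absurd (Nat.dvd_one.1 hp1) hp.out.one_lt.ne'

theorem fin (H : ℕ) (c : ℤ × ℤ) (hc : c ∈ Cv 2 H) :
    (Pool.Agent.W307.IM.Sel2 c.1 c.2).Finite := by
  classical
  unfold Cv at hc
  obtain ⟨_, a1, a2, _, _, a3⟩ := mem_filter.1 hc
  obtain ⟨e1, e2, e3, hr⟩ := exRoots c a1 a3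
  have h0 := hr 0
  have h1 := hr 1
  have h2 := hr (-1)
  have s1 : e1 + e2 + e3 = 0 := by nlinarith
  have s2 : c.1 = e1 * e2 + e1 * e3 + e2 * e3 := by nlinarith
  have s4 : c.2 = - (e1 * e2 * e3) := by nlinarith
  have s3 : e3 = -(e1 + e2) := by linarith
  have hdisc : 4 * c.1 ^ 3 + 27 * c.2 ^ 2 =
      -((e2 - e1) ^ 2 * (e3 - e1) ^ 2 * (e2 - e3) ^ 2) := by
    rw [s2, s4, s3]; ring
  have n1 : e2 - e1 ≠ 0 := by
    intro h; apply a1; rw [hdisc, h]; ring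
  have n2 : e3 - e1 ≠ 0 := by
    intro h; apply a1; rw [hdisc, h]; ring
  have n3 : e2 - e1 ≠ e3 - e1 := by
    intro h; apply a1
    have : e2 - e3 = 0 := by linarith
    rw [hdisc, this]; ring
  have hfin := sel_fin seld n1 n2 n3
  obtain ⟨f1, _⟩ := Pool.Agent.W597.SE.selc c.1 c.2 e1 e2 e3 (e2 - e1) (e3 - e1) 1 a1 hr
    one_ne_zero (by rw [one_pow, mul_one]) (by rw [one_pow, mul_one]) hfin
  exact f1

theorem fami : Pool.Agent.W307.IM.FAMI := by
  refine ⟨fun H c hc => fin H c hc, 2000000, 5329, 1 / 2, by norm_num, by norm_num, ?_⟩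
  intro T hT H h1 h2
  exact ⟨up T hT H h2, fun g hg => low T H h1 g hg⟩

end Pool.Agent.W382.IM
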