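import Pool.Agent.W307.IM.Stm
import Pool.Agent.W672.FK.Lowf
import Pool.Agent.W135.RT.Par6b

set_option autoImplicit false

namespace Pool.Agent.W382.IM

open Finset Pool.Agent.W307.RT Pool.Agent.W307.IM Pool.Agent.W672.FK Pool.Agent.W135.RT

/-- the three integer roots -/
theorem exRoots (c : ℤ × ℤ) (hD : 4 * c.1 ^ 3 + 27 * c.2 ^ 2 ≠ 0) (hT : HasT 2 (Sh c.1 c.2)) :
    ∃ e1 e2 e3 : ℤ, ∀ x : ℤ, x ^ 3 + c.1 * x + c.2 = (x - e1) * (x - e2) * (x - e3) := by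
  obtain ⟨A, B⟩ := c
  change 4 * A ^ 3 + 27 * B ^ 2 ≠ 0 at hD
  obtain ⟨P, Q, hP, hQ, hQP⟩ := hT
  obtain ⟨e1, he1, hPe1, h1⟩ := ord2 _ hP
  obtain ⟨e2, he2, hQe2, h2⟩ := ord2 _ hQ
  have h12 : e1 ≠ e2 := by
    intro h
    subst h
    apply hQP
    rw [hQe2, ← hPe1]
    exact AddSubgroup.mem_zmultiples P
  obtain ⟨i, hi⟩ := int_root h1
  obtain ⟨j, hj⟩ := int_root h2
  rw [hi] at h1
  rw [hj] at h2
  have h1' : i ^ 3 + A * i + B = 0 := by exact_mod_cast h1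
  have h2' : j ^ 3 + A * j + B = 0 := by exact_mod_cast h2
  have hij : i ≠ j := fun h => h12 (by rw [hi, hj, h])
  have hA : A = -(i ^ 2 + i * j + j ^ 2) := by
    have : (i - j) * (i ^ 2 + i * j + j ^ 2 + A) = 0 := by linear_combination h1' - h2'
    have := (mul_eq_zero.mp this).resolve_left (sub_ne_zero.mpr hij)
    linarith
  have hB : B = i * j * (i + j) := by
    rw [hA] at h1'; linear_combination h1'
  refine ⟨i, j, -i - j, ?_⟩
  intro x
  change x ^ 3 + A * x + B = _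
  rw [hA, hB]; ring

theorem root_bd {A B e1 e2 e3 : ℤ}
    (h : ∀ x : ℤ, x ^ 3 + A * x + B = (x - e1) * (x - e2) * (x - e3)) :
    (e2 - e1) ^ 2 ≤ -(4 * A) ∧ (e3 - e1) ^ 2 ≤ -(4 * A) := by
  have h0 := h 0
  have h1 := h 1
  have h2 := h (-1)
  have s1 : e1 + e2 + e3 = 0 := by nlinarith
  have s2 : A = e1 * e2 + e1 * e3 + e2 * e3 := by nlinarith
  have s3 : e3 = -(e1 + e2) := by linarith
  rw [s2, s3]
  constructor <;> nlinarith [sq_nonneg (e1 + e2), sq_nonneg e2]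

theorem size_bd {A x : ℤ} {H : ℕ} (h : x ^ 2 ≤ -(4 * A)) (hA : 4 * |A| ^ 3 ≤ H) :
    x ^ 6 ≤ 16 * (H : ℤ) := by
  have h1 : x ^ 2 ≤ 4 * |A| := by
    have := neg_abs_le A
    linarith
  have h2 : (x ^ 2) ^ 3 ≤ (4 * |A|) ^ 3 := pow_le_pow_left₀ (sq_nonneg x) h1 3
  calc x ^ 6 = (x ^ 2) ^ 3 := by ring
    _ ≤ (4 * |A|) ^ 3 := h2
    _ = 16 * (4 * |A| ^ 3) := by ring
    _ ≤ 16 * H := by linarith

theorem up (T : ℕ) (hT : 1 ≤ T) (H : ℕ) (hH : H ≤ 2000000 * (T + 1) ^ 6) :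
    ((Cv 2 H).card : ℝ) ≤ 5329 * (T : ℝ) ^ 2 := by
  classical
  have hex : ∀ c : ℤ × ℤ, ∃ e : ℤ × ℤ × ℤ, c ∈ Cv 2 H →
      ∀ x : ℤ, x ^ 3 + c.1 * x + c.2 = (x - e.1) * (x - e.2.1) * (x - e.2.2) := by
    intro c
    by_cases hc : c ∈ Cv 2 H
    · unfold Cv at hc
      obtain ⟨_, a1, _, _, _, a3⟩ := mem_filter.1 hc
      obtain ⟨e1, e2, e3, h⟩ := exRoots c a1 a3
      exact ⟨(e1, e2, e3), fun _ => h⟩
    · exact ⟨(0, 0, 0), fun h => absurd h hc⟩
  choose E hE using hex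
  have hbd : ∀ x : ℤ, x ^ 6 ≤ 16 * (H : ℤ) →
      x ∈ Icc (-(18 * ((T : ℤ) + 1))) (18 * ((T : ℤ) + 1)) := by
    intro x hx
    have h1 : (H : ℤ) ≤ 2000000 * ((T : ℤ) + 1) ^ 6 := by exact_mod_cast hH
    have h2 : |x| ^ 6 ≤ (18 * ((T : ℤ) + 1)) ^ 6 := by
      have e : |x| ^ 6 = x ^ 6 := by
        have : Even 6 := by decide
        exact this.pow_abs x
      rw [e, mul_pow]
      have : (0 : ℤ) ≤ ((T : ℤ) + 1) ^ 6 := by positivity
      norm_num
      linarith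
    have h3 : |x| ≤ 18 * ((T : ℤ) + 1) :=
      le_of_pow_le_pow_left₀ (by norm_num) (by positivity) h2
    rw [mem_Icc]
    exact abs_le.1 h3
  have hcard : (Cv 2 H).card ≤ (Icc (-(18 * ((T : ℤ) + 1))) (18 * ((T : ℤ) + 1)) ×ˢ
      Icc (-(18 * ((T : ℤ) + 1))) (18 * ((T : ℤ) + 1))).card := by
    apply card_le_card_of_injOn (fun c => ((E c).2.1 - (E c).1, (E c).2.2 - (E c).1))
    · intro c hc
      have hc' : c ∈ Cv 2 H := hc
      have hr := hE c hc'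
      obtain ⟨r1, r2⟩ := root_bd hr
      have hcc := hc'
      unfold Cv at hcc
      obtain ⟨_, _, a2, _, _, _⟩ := mem_filter.1 hcc
      have : ((E c).2.1 - (E c).1, (E c).2.2 - (E c).1) ∈
        (Icc (-(18 * ((T : ℤ) + 1))) (18 * ((T : ℤ) + 1)) ×ˢ
      Icc (-(18 * ((T : ℤ) + 1))) (18 * ((T : ℤ) + 1))) := by
        rw [mem_product]
        exact ⟨hbd _ (size_bd r1 a2), hbd _ (size_bd r2 a2)⟩
      exact this
    · intro c hc c' hc' h
      have hx := hE c hc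
      have hx' := hE c' hc'
      simp only [Prod.mk.injEq] at h
      obtain ⟨h1, h2⟩ := h
      have a0 := hx 0
      have a1 := hx 1
      have a2 := hx (-1)
      have b0 := hx' 0
      have b1 := hx' 1
      have b2 := hx' (-1)
      have s : (E c).1 + (E c).2.1 + (E c).2.2 = 0 := by
        have : 2 * ((E c).1 + (E c).2.1 + (E c).2.2) = 0 := by
          linear_combination a1 + a2 - 2 * a0
        linarith
      have s' : (E c').1 + (E c').2.1 + (E c').2.2 = 0 := by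
        have : 2 * ((E c').1 + (E c').2.1 + (E c').2.2) = 0 := by
          linear_combination b1 + b2 - 2 * b0
        linarith
      have q1 : (E c).1 = (E c').1 := by linarith
      have q2 : (E c).2.1 = (E c').2.1 := by linarith
      have q3 : (E c).2.2 = (E c').2.2 := by linarith
      rw [q1, q2, q3] at a0 a1
      have hB : c.2 = c'.2 := by linarith
      have hA : c.1 = c'.1 := by linarith
      exact Prod.ext hA hB
  have hN : (Icc (-(18 * ((T : ℤ) + 1))) (18 * ((T : ℤ) + 1))).card = 2 * (18 * (T + 1)) + 1 := by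
    rw [Int.card_Icc]
    omega
  rw [card_product, hN] at hcard
  have h1 : (2 * (18 * (T + 1)) + 1) * (2 * (18 * (T + 1)) + 1) ≤ 5329 * T ^ 2 := by
    have : 2 * (18 * (T + 1)) + 1 ≤ 73 * T := by omega
    calc _ ≤ (73 * T) * (73 * T) := Nat.mul_le_mul this this
      _ = 5329 * T ^ 2 := by ring
  exact_mod_cast hcard.trans h1

theorem cg_eq (t : ℕ × ℕ) : ((cA t.1 t.2, cB t.1 t.2) : ℤ × ℤ) = cg t := by
  unfold cA cB cg
  ext <;> simp only <;> ring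

theorem cg_swap (t : ℕ × ℕ) : cg t = cg (t.2, t.1) := by
  unfold cg
  ext <;> simp only <;> ring

theorem low (T H : ℕ) (hH : 2000000 * T ^ 6 ≤ H) (g : ℤ × ℤ → ℝ) (hg : ∀ c, 0 ≤ g c) :
    (1 / 2 : ℝ) * ∑ t ∈ Pr T, g (cA t.1 t.2, cB t.1 t.2) ≤ ∑ c ∈ Cv 2 H, g c := by
  classical
  have hmem : ∀ t ∈ Pr T, t.1 ≠ t.2 ∧ t.1.Coprime t.2 ∧ 1 ≤ t.1 ∧ t.1 ≤ T ∧ 1 ≤ t.2 ∧
      t.2 ≤ T := by
    intro t ht
    unfold Pr at ht
    rw [mem_filter, mem_product, mem_Icc, mem_Icc] at ht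
    obtain ⟨⟨⟨a1, a2⟩, a3, a4⟩, a5, a6⟩ := ht
    exact ⟨a5, a6, a1, a2, a3, a4⟩
  have hsplit : ∑ t ∈ Pr T, g (cA t.1 t.2, cB t.1 t.2) =
      ∑ t ∈ (Pr T).filter (fun t => t.2 < t.1), g (cg t) +
      ∑ t ∈ (Pr T).filter (fun t => ¬ t.2 < t.1), g (cg t) := by
    rw [sum_filter_add_sum_filter_not]
    exact sum_congr rfl fun t _ => by rw [cg_eq]
  have h1 : ∑ t ∈ (Pr T).filter (fun t => t.2 < t.1), g (cg t) ≤ ∑ c ∈ Cv 2 H, g c := by
    have hinj : Set.InjOn cg ((Pr T).filter (fun t => t.2 < t.1) : Finset (ℕ × ℕ)) := by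
      intro t ht t' ht' h
      have ht1 : t ∈ (Pr T).filter (fun t => t.2 < t.1) := ht
      have ht2 : t' ∈ (Pr T).filter (fun t => t.2 < t.1) := ht'
      rw [mem_filter] at ht1 ht2
      obtain ⟨_, _, a1, a2, a3, a4⟩ := hmem t ht1.1
      obtain ⟨_, _, b1, b2, b3, b4⟩ := hmem t' ht2.1
      simp only [cg, Prod.mk.injEq] at h
      obtain ⟨e1, e2⟩ := cg_inj (by exact_mod_cast a3) (by exact_mod_cast ht1.2)
        (by exact_mod_cast b3) (by exact_mod_cast ht2.2) h.1 h.2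
      exact Prod.ext (by exact_mod_cast e1) (by exact_mod_cast e2)
    rw [← sum_image hinj]
    apply sum_le_sum_of_subset_of_nonneg
    · intro c hc
      obtain ⟨t, ht, rfl⟩ := mem_image.1 hc
      rw [mem_filter] at ht
      obtain ⟨_, a0, a1, a2, a3, a4⟩ := hmem t ht.1
      exact mem_cv2 a3 ht.2 a2 a0 hH
    · intro c _ _
      exact hg c
  have h2 : ∑ t ∈ (Pr T).filter (fun t => ¬ t.2 < t.1), g (cg t) ≤ ∑ c ∈ Cv 2 H, g c := by
    have hinj : Set.InjOn cg ((Pr T).filter (fun t => ¬ t.2 < t.1) : Finset (ℕ × ℕ)) := by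
      intro t ht t' ht' h
      have ht1 : t ∈ (Pr T).filter (fun t => ¬ t.2 < t.1) := ht
      have ht2 : t' ∈ (Pr T).filter (fun t => ¬ t.2 < t.1) := ht'
      rw [mem_filter] at ht1 ht2
      obtain ⟨a5, _, a1, a2, a3, a4⟩ := hmem t ht1.1
      obtain ⟨b5, _, b1, b2, b3, b4⟩ := hmem t' ht2.1
      rw [cg_swap t, cg_swap t'] at h
      simp only [cg, Prod.mk.injEq] at h
      have k1 : t.1 < t.2 := by omega
      have k2 : t'.1 < t'.2 := by omega
      obtain ⟨e1, e2⟩ := cg_inj (by exact_mod_cast a1) (by exact_mod_cast k1)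
        (by exact_mod_cast b1) (by exact_mod_cast k2) h.1 h.2
      exact Prod.ext (by exact_mod_cast e2) (by exact_mod_cast e1)
    rw [← sum_image hinj]
    apply sum_le_sum_of_subset_of_nonneg
    · intro c hc
      obtain ⟨t, ht, rfl⟩ := mem_image.1 hc
      rw [mem_filter] at ht
      obtain ⟨a5, a0, a1, a2, a3, a4⟩ := hmem t ht.1
      rw [cg_swap t]
      have k1 : t.1 < t.2 := by omega
      exact mem_cv2 a1 k1 a4 a0.symm hH
    · intro c _ _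
      exact hg c
  rw [hsplit]
  linarith

end Pool.Agent.W382.IM
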